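import Pool.Agent.H35R3.Reimer

/-!
The BKR inequality for open subsets of `[0,1]^ℕ` with arbitrary (possibly infinite) witness sets.
-/

set_option autoImplicit false

namespace H35R3

open MeasureTheory Set

/-- The product Lebesgue measure on `[0,1]^ℕ`. -/
noncomputable abbrev mm : Measure (ℕ → unitInterval) :=
  Measure.infinitePi (fun _ : ℕ => (volume : Measure unitInterval))

/-- The index of the dyadic interval of level `k`. -/
noncomputable def idx (k : ℕ) (x : unitInterval) : Fin (2 ^ k) :=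
  ⟨min ⌊(2:ℝ) ^ k * (x : ℝ)⌋₊ (2 ^ k - 1), by
    have : 0 < 2 ^ k := by positivity
    omega⟩

theorem idx_iff (k : ℕ) (x : unitInterval) (j : Fin (2 ^ k)) : idx k x = j ↔
    ((j : ℕ) : ℝ) ≤ 2 ^ k * (x : ℝ) ∧ ((j : ℕ) + 1 = 2 ^ k ∨ 2 ^ k * (x : ℝ) < (j : ℕ) + 1) := by
  have h2 : 0 < 2 ^ k := by positivity
  have hj := j.2
  have hx0 : (0:ℝ) ≤ 2 ^ k * (x : ℝ) := mul_nonneg (by positivity) x.2.1
  rw [Fin.ext_iff]
  change min ⌊(2:ℝ) ^ k * (x : ℝ)⌋₊ (2 ^ k - 1) = (j : ℕ) ↔ _
  rw [← Nat.le_floor_iff hx0]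
  have h3 : 2 ^ k * (x : ℝ) < ((j : ℕ) : ℝ) + 1 ↔ ⌊(2:ℝ) ^ k * (x : ℝ)⌋₊ < (j : ℕ) + 1 := by
    rw [Nat.floor_lt hx0]; push_cast; rfl
  rw [h3]
  omega

theorem idx_close {k : ℕ} {x y : unitInterval} (h : idx k x = idx k y) :
    |(x : ℝ) - y| ≤ (1/2) ^ k := by
  obtain ⟨a1, a2⟩ := (idx_iff k x (idx k y)).mp h
  obtain ⟨b1, b2⟩ := (idx_iff k y (idx k y)).mp rfl
  have hp : (0:ℝ) < 2 ^ k := by positivity
  have a3 : 2 ^ k * (x : ℝ) ≤ ((idx k y : ℕ) : ℝ) + 1 := by
    rcases a2 with a2 | a2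
    · have e : (((idx k y : ℕ) : ℝ) + 1) = 2 ^ k := by exact_mod_cast a2
      rw [e]
      have := x.2.2
      nlinarith
    · exact a2.le
  have b3 : 2 ^ k * (y : ℝ) ≤ ((idx k y : ℕ) : ℝ) + 1 := by
    rcases b2 with b2 | b2
    · have e : (((idx k y : ℕ) : ℝ) + 1) = 2 ^ k := by exact_mod_cast b2
      rw [e]
      have := y.2.2
      nlinarith
    · exact b2.le
  have c1 : 2 ^ k * |(x : ℝ) - y| ≤ 1 := by
    rw [← abs_of_pos hp, ← abs_mul, abs_le]
    constructor <;> nlinarith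
  have e : ((1:ℝ)/2) ^ k = 1 / 2 ^ k := by rw [one_div_pow]
  rw [e, le_div_iff₀ hp]
  linarith

theorem volume_idx (k : ℕ) (j : Fin (2 ^ k)) :
    (volume : Measure unitInterval) {x | idx k x = j} = ENNReal.ofReal ((1/2) ^ k) := by
  have hp : (0:ℝ) < 2 ^ k := by positivity
  have hj : ((j : ℕ) : ℝ) + 1 ≤ 2 ^ k := by exact_mod_cast j.2
  have hj0 : (0:ℝ) ≤ ((j : ℕ) : ℝ) := Nat.cast_nonneg _
  have m1 : ((j : ℕ) : ℝ) / 2 ^ k ∈ unitInterval :=
    ⟨by positivity, by rw [div_le_one hp]; linarith⟩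
  have m2 : (((j : ℕ) : ℝ) + 1) / 2 ^ k ∈ unitInterval :=
    ⟨by positivity, by rw [div_le_one hp]; linarith⟩
  by_cases hl : (j : ℕ) + 1 = 2 ^ k
  · have e : {x | idx k x = j} = Set.Ici (⟨_, m1⟩ : unitInterval) := by
      ext x
      rw [Set.mem_ofPred_eq, idx_iff, Set.mem_Ici, ← Subtype.coe_le_coe]
      simp only [hl, true_or, and_true]
      rw [div_le_iff₀ hp, mul_comm]
    rw [e, unitInterval.volume_Ici]
    congr 1
    have e2 : (((j : ℕ) : ℝ) + 1) = 2 ^ k := by exact_mod_cast hl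
    have e3 : ((1:ℝ)/2) ^ k = 1 / 2 ^ k := by rw [one_div_pow]
    simp only [e3]
    field_simp
    linarith
  · have e : {x | idx k x = j} = Set.Ico (⟨_, m1⟩ : unitInterval) ⟨_, m2⟩ := by
      ext x
      rw [Set.mem_ofPred_eq, idx_iff, Set.mem_Ico, ← Subtype.coe_le_coe, ← Subtype.coe_lt_coe]
      simp only [hl, false_or]
      rw [div_le_iff₀ hp, lt_div_iff₀ hp, mul_comm]
    rw [e, unitInterval.volume_Ico]
    congr 1
    have e3 : ((1:ℝ)/2) ^ k = 1 / 2 ^ k := by rw [one_div_pow]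
    simp only [e3]
    field_simp
    ring

/-- A bijection between the dyadic intervals of level `k` and the words of `k` bits. -/
noncomputable def enc (k : ℕ) : Fin (2 ^ k) ≃ (Fin k → Bool) :=
  Fintype.equivOfCardEq (by simp)

/-- The code of level `k` of a point of `[0,1]^ℕ`. -/
noncomputable def code (k : ℕ) (ω : ℕ → unitInterval) : Fin k × Fin k → Bool :=
  fun p => enc k (idx k (ω p.1)) p.2

theorem code_iff (k : ℕ) (ω : ℕ → unitInterval) (c : Fin k × Fin k → Bool) :
    code k ω = c ↔ ∀ i : Fin k, idx k (ω i) = (enc k).symm (fun b => c (i, b)) := by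
  constructor
  · intro h i
    rw [Equiv.eq_symm_apply]
    funext b
    exact congrFun h (i, b)
  · intro h
    funext p
    have := h p.1
    rw [Equiv.eq_symm_apply] at this
    exact congrFun this p.2

theorem measurableSet_idx (k : ℕ) (j : Fin (2 ^ k)) : MeasurableSet {x | idx k x = j} := by
  have e : {x | idx k x = j} = {x : unitInterval | ((j : ℕ) : ℝ) ≤ 2 ^ k * (x : ℝ)} ∩
      ({x : unitInterval | (j : ℕ) + 1 = 2 ^ k} ∪
        {x : unitInterval | 2 ^ k * (x : ℝ) < ((j : ℕ) : ℝ) + 1}) := by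
    ext x
    exact idx_iff k x j
  rw [e]
  refine MeasurableSet.inter (measurableSet_le (by fun_prop) (by fun_prop))
    (MeasurableSet.union (MeasurableSet.const _) (measurableSet_lt (by fun_prop) (by fun_prop)))

theorem code_set (k : ℕ) (c : Fin k × Fin k → Bool) : {ω | code k ω = c} =
    Set.pi (Finset.range k : Set ℕ) (fun i => {x | ∀ h : i < k,
      idx k x = (enc k).symm (fun b => c (⟨i, h⟩, b))}) := by
  ext ω
  rw [Set.mem_ofPred_eq, code_iff, Set.mem_pi]
  constructor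
  · intro h i _ hi
    exact h ⟨i, hi⟩
  · intro h i
    exact h i.1 (by simp) i.2

theorem measurableSet_code (k : ℕ) (c : Fin k × Fin k → Bool) :
    MeasurableSet {ω | code k ω = c} := by
  rw [code_set]
  refine MeasurableSet.pi (Finset.countable_toSet _) fun i hi => ?_
  have hi' : i < k := by simpa using hi
  simp only [hi', forall_true_left]
  exact measurableSet_idx k _

theorem mm_code (k : ℕ) (c : Fin k × Fin k → Bool) :
    mm {ω | code k ω = c} = ENNReal.ofReal ((1/2) ^ (k * k)) := by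
  rw [code_set, Measure.infinitePi_pi]
  · have : ∀ i ∈ Finset.range k, (volume : Measure unitInterval) {x | ∀ h : i < k,
      idx k x = (enc k).symm (fun b => c (⟨i, h⟩, b))} = ENNReal.ofReal ((1/2) ^ k) := by
      intro i hi
      have hi' : i < k := by simpa using hi
      simp only [hi', forall_true_left]
      exact volume_idx k _
    rw [Finset.prod_congr rfl this, Finset.prod_const, Finset.card_range,
      ← ENNReal.ofReal_pow (by positivity), ← pow_mul]
  · intro i hi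
    have hi' : i < k := by simpa using hi
    simp only [hi', forall_true_left]
    exact measurableSet_idx k _

theorem measurableSet_codes (k : ℕ) (S : Finset (Fin k × Fin k → Bool)) :
    MeasurableSet {ω | code k ω ∈ S} := by
  have e : {ω | code k ω ∈ S} = ⋃ c ∈ S, {ω | code k ω = c} := by
    ext ω; simp
  rw [e]
  exact MeasurableSet.biUnion (Finset.countable_toSet _) fun c _ => measurableSet_code k c

theorem mm_codes (k : ℕ) (S : Finset (Fin k × Fin k → Bool)) :
    mm {ω | code k ω ∈ S} = S.card * ENNReal.ofReal ((1/2) ^ (k * k)) := by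
  have e : {ω | code k ω ∈ S} = ⋃ c ∈ S, {ω | code k ω = c} := by
    ext ω; simp
  rw [e, measure_biUnion_finset]
  · rw [Finset.sum_congr rfl (fun c _ => mm_code k c), Finset.sum_const, nsmul_eq_mul]
  · intro c _ c' _ hcc
    rw [Function.onFun, Set.disjoint_left]
    intro ω h1 h2
    exact hcc (h1.symm.trans h2)
  · intro c _
    exact measurableSet_code k c

/-- Disjoint occurrence with arbitrary witness sets. -/
def disj (A B : Set (ℕ → unitInterval)) : Set (ℕ → unitInterval) :=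
  {ω : ℕ → unitInterval | ∃ J K : Set ℕ, Disjoint J K ∧
            (∀ η : ℕ → unitInterval, (∀ i ∈ J, η i = ω i) → η ∈ A) ∧
            (∀ η : ℕ → unitInterval, (∀ i ∈ K, η i = ω i) → η ∈ B)}

/-- Compactness. -/
theorem near (U : Set (ℕ → unitInterval)) (hU : IsOpen U) (J : Set ℕ) (ω : ℕ → unitInterval)
    (h : ∀ η : ℕ → unitInterval, (∀ i ∈ J, η i = ω i) → η ∈ U) :
    ∃ k0 : ℕ, ∀ k, k0 ≤ k → ∀ η : ℕ → unitInterval,
      (∀ i ∈ J, i < k → |(η i : ℝ) - ω i| ≤ (1/2) ^ k) → η ∈ U := by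
  set F : ℕ → Set (ℕ → unitInterval) := fun k =>
    Uᶜ ∩ ⋂ i ∈ {i | i ∈ J ∧ i < k}, {η | |(η i : ℝ) - ω i| ≤ (1/2) ^ k} with hF
  have hcl : ∀ k, IsClosed (F k) := by
    intro k
    refine IsClosed.inter hU.isClosed_compl (isClosed_biInter fun i _ => ?_)
    exact isClosed_le (by fun_prop) continuous_const
  have hmem : ∀ k (η : ℕ → unitInterval), η ∈ F k ↔
      η ∉ U ∧ ∀ i ∈ J, i < k → |(η i : ℝ) - ω i| ≤ (1/2) ^ k := by
    intro k η
    simp only [hF, Set.mem_inter_iff, Set.mem_compl_iff, Set.mem_iInter]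
    constructor
    · rintro ⟨h1, h2⟩
      exact ⟨h1, fun i hi hik => h2 i ⟨hi, hik⟩⟩
    · rintro ⟨h1, h2⟩
      exact ⟨h1, fun i hi => h2 i hi.1 hi.2⟩
  have hanti : ∀ k, F (k + 1) ⊆ F k := by
    intro k η hη
    rw [hmem] at hη ⊢
    refine ⟨hη.1, fun i hi hik => (hη.2 i hi (by omega)).trans ?_⟩
    exact pow_le_pow_of_le_one (by norm_num) (by norm_num) (by omega)
  by_contra hcon
  push Not at hcon
  have hne : ∀ k, (F k).Nonempty := by
    intro k
    obtain ⟨k', hk', η, h1, h2⟩ := hcon k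
    refine ⟨η, ?_⟩
    rw [hmem]
    refine ⟨h2, fun i hi hik => (h1 i hi (by omega)).trans ?_⟩
    exact pow_le_pow_of_le_one (by norm_num) (by norm_num) hk'
  obtain ⟨η, hη⟩ := IsCompact.nonempty_iInter_of_sequence_nonempty_isCompact_isClosed F hanti hne
    (hcl 0).isCompact hcl
  rw [Set.mem_iInter] at hη
  have h0 := ((hmem 0 η).mp (hη 0)).1
  apply h0
  apply h
  intro i hi
  apply Subtype.ext
  have hlim : Filter.Tendsto (fun k : ℕ => ((1:ℝ)/2) ^ k) Filter.atTop (nhds 0) :=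
    tendsto_pow_atTop_nhds_zero_of_lt_one (by norm_num) (by norm_num)
  have h3 : |(η i : ℝ) - ω i| ≤ 0 := by
    refine ge_of_tendsto hlim ?_
    filter_upwards [Filter.eventually_gt_atTop i] with k hk
    exact ((hmem k η).mp (hη k)).2 i hi hk
  have h4 := abs_nonpos_iff.mp h3
  linarith

open Classical in
/-- The cells of level `k` inside `U`. -/
noncomputable def cells (k : ℕ) (U : Set (ℕ → unitInterval)) : Finset (Fin k × Fin k → Bool) :=
  Finset.univ.filter (fun c => ∀ ω, code k ω = c → ω ∈ U)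

open Classical in
/-- The discrete disjoint occurrence. -/
noncomputable def dcells (k : ℕ) (U V : Set (ℕ → unitInterval)) :
    Finset (Fin k × Fin k → Bool) :=
  Finset.univ.filter (fun c => ∃ K : Finset (Fin k × Fin k),
    (∀ y : Fin k × Fin k → Bool, (∀ i ∈ K, y i = c i) → y ∈ cells k U) ∧
      (∀ y : Fin k × Fin k → Bool, (∀ i, i ∉ K → y i = c i) → y ∈ cells k V))

theorem mem_cells {k : ℕ} {U : Set (ℕ → unitInterval)} {c : Fin k × Fin k → Bool} :
    c ∈ cells k U ↔ ∀ ω, code k ω = c → ω ∈ U := by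
  classical
  simp [cells]

theorem mem_dcells {k : ℕ} {U V : Set (ℕ → unitInterval)} {c : Fin k × Fin k → Bool} :
    c ∈ dcells k U V ↔ ∃ K : Finset (Fin k × Fin k),
    (∀ y : Fin k × Fin k → Bool, (∀ i ∈ K, y i = c i) → y ∈ cells k U) ∧
      (∀ y : Fin k × Fin k → Bool, (∀ i, i ∉ K → y i = c i) → y ∈ cells k V) := by
  classical
  simp only [dcells, Finset.mem_filter, Finset.mem_univ, true_and]

theorem dcells_le (k : ℕ) (U V : Set (ℕ → unitInterval)) :
    mm {ω | code k ω ∈ dcells k U V} ≤ mm U * mm V := by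
  have h1 := reimer (cells k U) (cells k V) (dcells k U V) (fun x hx => mem_dcells.mp hx)
  have h2 : mm {ω | code k ω ∈ cells k U} ≤ mm U := by
    refine measure_mono fun ω hω => ?_
    exact mem_cells.mp hω ω rfl
  have h3 : mm {ω | code k ω ∈ cells k V} ≤ mm V := by
    refine measure_mono fun ω hω => ?_
    exact mem_cells.mp hω ω rfl
  refine le_trans ?_ (mul_le_mul' h2 h3)
  rw [mm_codes, mm_codes, mm_codes]
  have e1 : ((dcells k U V).card : ENNReal) * ENNReal.ofReal ((1/2) ^ (k * k)) =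
      ENNReal.ofReal ((dcells k U V).card * (1/2) ^ (k * k)) := by
    rw [ENNReal.ofReal_mul (by positivity), ENNReal.ofReal_natCast]
  have e2 : ((cells k U).card : ENNReal) * ENNReal.ofReal ((1/2) ^ (k * k)) =
      ENNReal.ofReal ((cells k U).card * (1/2) ^ (k * k)) := by
    rw [ENNReal.ofReal_mul (by positivity), ENNReal.ofReal_natCast]
  have e3 : ((cells k V).card : ENNReal) * ENNReal.ofReal ((1/2) ^ (k * k)) =
      ENNReal.ofReal ((cells k V).card * (1/2) ^ (k * k)) := by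
    rw [ENNReal.ofReal_mul (by positivity), ENNReal.ofReal_natCast]
  rw [e1, e2, e3, ← ENNReal.ofReal_mul (by positivity)]
  apply ENNReal.ofReal_le_ofReal
  have h4 : (((dcells k U V).card * 2 ^ (k * k) : ℕ) : ℝ) ≤
      (((cells k U).card * (cells k V).card : ℕ) : ℝ) := by
    have e : Fintype.card (Fin k × Fin k) = k * k := by simp
    rw [e] at h1
    exact_mod_cast h1
  push_cast at h4
  have hp : (0:ℝ) < 2 ^ (k * k) := by positivity
  have e4 : ((1:ℝ)/2) ^ (k * k) = 1 / 2 ^ (k * k) := by rw [one_div_pow]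
  rw [e4]
  have e5 : ((cells k U).card : ℝ) * (1 / 2 ^ (k * k)) * ((cells k V).card * (1 / 2 ^ (k * k))) =
      ((cells k U).card * (cells k V).card) / (2 ^ (k * k)) / (2 ^ (k * k)) := by
    field_simp
  rw [e5, mul_one_div, div_le_div_iff_of_pos_right hp, le_div_iff₀ hp]
  exact h4

theorem disj_eventually (U V : Set (ℕ → unitInterval)) (hU : IsOpen U) (hV : IsOpen V)
    (ω : ℕ → unitInterval) (h : ω ∈ disj U V) : ∃ n : ℕ, ∀ k, n ≤ k → code k ω ∈ dcells k U V := by
  obtain ⟨J, K, hJK, h1, h2⟩ := h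
  obtain ⟨k1, hk1⟩ := near U hU J ω h1
  obtain ⟨k2, hk2⟩ := near V hV K ω h2
  refine ⟨max k1 k2, fun k hk => ?_⟩
  classical
  have key : ∀ (η : ℕ → unitInterval) (i : ℕ) (hi : i < k),
      (∀ b, code k η (⟨i, hi⟩, b) = code k ω (⟨i, hi⟩, b)) → |(η i : ℝ) - ω i| ≤ (1/2) ^ k := by
    intro η i hi hb
    apply idx_close
    apply (enc k).injective
    funext b
    exact hb b
  rw [mem_dcells]
  refine ⟨Finset.univ.filter (fun p => (p.1 : ℕ) ∈ J), ?_, ?_⟩
  · intro y hy
    rw [mem_cells]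
    intro η hη
    refine hk1 k (le_trans (le_max_left _ _) hk) η fun i hi hik => ?_
    refine key η i hik fun b => ?_
    rw [hη]
    exact hy _ (Finset.mem_filter.mpr ⟨Finset.mem_univ _, hi⟩)
  · intro y hy
    rw [mem_cells]
    intro η hη
    refine hk2 k (le_trans (le_max_right _ _) hk) η fun i hi hik => ?_
    refine key η i hik fun b => ?_
    rw [hη]
    refine hy _ fun hc => ?_
    exact Set.disjoint_left.mp hJK (Finset.mem_filter.mp hc).2 hi

/-- The inequality for open sets. -/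
theorem disj_open (U V : Set (ℕ → unitInterval)) (hU : IsOpen U) (hV : IsOpen V) :
    mm (disj U V) ≤ mm U * mm V := by
  have hsub : disj U V ⊆ ⋃ n : ℕ, ⋂ k ∈ {k | n ≤ k}, {ω | code k ω ∈ dcells k U V} := by
    intro ω hω
    obtain ⟨n, hn⟩ := disj_eventually U V hU hV ω hω
    rw [Set.mem_iUnion]
    refine ⟨n, ?_⟩
    rw [Set.mem_iInter₂]
    exact fun k hk => hn k hk
  refine (measure_mono hsub).trans ?_
  have hmono : Monotone (fun n : ℕ => ⋂ k ∈ {k | n ≤ k}, {ω | code k ω ∈ dcells k U V}) := by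
    intro n n' hnn ω hω
    rw [Set.mem_iInter₂] at hω ⊢
    exact fun k hk => hω k (le_trans hnn hk)
  rw [hmono.measure_iUnion]
  refine iSup_le fun n => ?_
  refine (measure_mono ?_).trans (dcells_le n U V)
  intro ω hω
  rw [Set.mem_iInter₂] at hω
  exact hω n (le_refl n)

/-- **BKR with arbitrary witness sets.** -/
theorem disj_outer (A B : Set (ℕ → unitInterval)) : mm (disj A B) ≤ mm A * mm B := by
  refine ENNReal.le_mul_of_forall_lt (Or.inr (measure_ne_top _ _))
    (Or.inl (measure_ne_top _ _)) fun a ha b hb => ?_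
  obtain ⟨U, hAU, hU, hUa⟩ := A.exists_isOpen_lt_of_lt a ha
  obtain ⟨V, hBV, hV, hVb⟩ := B.exists_isOpen_lt_of_lt b hb
  refine le_trans ?_ (mul_le_mul' hUa.le hVb.le)
  refine le_trans (measure_mono ?_) (disj_open U V hU hV)
  rintro ω ⟨J, K, hJK, h1, h2⟩
  exact ⟨J, K, hJK, fun η hη => hAU (h1 η hη), fun η hη => hBV (h2 η hη)⟩

end H35R3
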