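import Mathlib

/-!
Bipartite proper `3`-colorings: a colour class on one side is not positively associated.
`169` copies of a graph on `8` vertices are glued at one vertex.
-/

set_option autoImplicit false

namespace H35R3.Col

open Finset

/-- Adjacency inside one copy: `0, 1, 2, 3` are on the side `A`. -/
def e7 (x y : Fin 7) : Bool :=
  match x.val, y.val with
  | 0, 4 => true | 4, 0 => true | 2, 4 => true | 4, 2 => true
  | 0, 5 => true | 5, 0 => true | 3, 5 => true | 5, 3 => true
  | 1, 6 => true | 6, 1 => true | 2, 6 => true | 6, 2 => true | 3, 6 => true | 6, 3 => true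
  | _, _ => false

theorem e7_symm (x y : Fin 7) : e7 x y = e7 y x := by
  revert x y; decide

theorem e7_irr (x : Fin 7) : e7 x x = false := by
  revert x; decide

/-- The colouring `g` of one copy is proper when the common vertex has colour `c`. -/
def P (c : Fin 3) (g : Fin 7 → Fin 3) : Prop :=
  (g 4 ≠ c ∧ g 5 ≠ c) ∧ (g 0 ≠ g 4 ∧ g 2 ≠ g 4) ∧ (g 0 ≠ g 5 ∧ g 3 ≠ g 5) ∧
    (g 1 ≠ g 6 ∧ g 2 ≠ g 6 ∧ g 3 ≠ g 6)

instance (c : Fin 3) : DecidablePred (P c) := fun g => by unfold P; infer_instance

theorem cnt (c : Fin 3) : ((Finset.univ : Finset (Fin 7 → Fin 3)).filter (P c)).card = 68 := by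
  revert c; decide +kernel

theorem cntU : ((Finset.univ : Finset (Fin 7 → Fin 3)).filter
    (fun g => P 0 g ∧ g 0 = 0)).card = 44 := by decide +kernel

theorem cntW : ((Finset.univ : Finset (Fin 7 → Fin 3)).filter
    (fun g => P 0 g ∧ g 1 = 0)).card = 28 := by decide +kernel

theorem cntUW : ((Finset.univ : Finset (Fin 7 → Fin 3)).filter
    (fun g => P 0 g ∧ g 0 = 0 ∧ g 1 = 0)).card = 18 := by decide +kernel

/-- The vertex set. -/
abbrev Vx (N : ℕ) : Type := Option (Fin N × Fin 7)

variable {N : ℕ}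

/-- Adjacency. -/
def adj : Vx N → Vx N → Bool
  | none, none => false
  | none, some p => decide (p.2 = 4) || decide (p.2 = 5)
  | some p, none => decide (p.2 = 4) || decide (p.2 = 5)
  | some p, some p' => decide (p.1 = p'.1) && e7 p.2 p'.2

/-- The graph. -/
def Gr (N : ℕ) : SimpleGraph (Vx N) where
  Adj x y := adj x y = true
  symm := ⟨by
    intro x y h
    cases x <;> cases y
    · exact h
    · exact h
    · exact h
    · rename_i p p'
      simp only [adj, Bool.and_eq_true, decide_eq_true_eq] at h ⊢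
      exact ⟨h.1.symm, by rw [e7_symm]; exact h.2⟩⟩
  loopless := ⟨by
    intro x h
    cases x
    · simp [adj] at h
    · simp only [adj, Bool.and_eq_true, e7_irr] at h
      exact absurd h.2 (by simp)⟩

instance : DecidableRel (Gr N).Adj := fun x y => inferInstanceAs (Decidable (adj x y = true))

/-- The side `A`. -/
def A (N : ℕ) : Finset (Vx N) := Finset.univ.filter (fun x => ∀ p ∈ x, (p.2 : Fin 7).val < 4)

theorem none_mem : (none : Vx N) ∈ A N := by
  simp [A]

theorem some_mem (p : Fin N × Fin 7) : (some p : Vx N) ∈ A N ↔ p.2.val < 4 := by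
  unfold A
  rw [Finset.mem_filter]
  constructor
  · intro h; exact h.2 p rfl
  · intro h; exact ⟨Finset.mem_univ _, fun q hq => by rw [← Option.some_injective _ hq]; exact h⟩

theorem e7_bip : ∀ x y : Fin 7, e7 x y = true → (x.val < 4 ↔ ¬ y.val < 4) := by decide

theorem v45 : ∀ x : Fin 7, (decide (x = 4) || decide (x = 5)) = true → ¬ x.val < 4 := by decide

theorem bip (v w : Vx N) (h : (Gr N).Adj v w) : v ∈ A N ↔ w ∉ A N := by
  change adj v w = true at h
  cases v with
  | none =>
    cases w with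
    | none => exact absurd h (by simp [adj])
    | some p =>
      have := v45 p.2 h
      rw [some_mem]
      exact ⟨fun _ => this, fun _ => none_mem⟩
  | some p =>
    cases w with
    | none =>
      have := v45 p.2 h
      rw [some_mem]
      exact ⟨fun h' => absurd h' this, fun h' => absurd none_mem h'⟩
    | some p' =>
      simp only [adj, Bool.and_eq_true, decide_eq_true_eq] at h
      rw [some_mem, some_mem]
      exact e7_bip _ _ h.2

/-- The colouring of one copy. -/
def loc (f : Vx N → Fin 3) (i : Fin N) : Fin 7 → Fin 3 := fun j => f (some (i, j))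

theorem proper_iff (f : Vx N → Fin 3) : (∀ v w : Vx N, (Gr N).Adj v w → f v ≠ f w) ↔
    ∀ i, P (f none) (loc f i) := by
  constructor
  · intro h i
    have h2 : ∀ x y : Fin 7, e7 x y = true → loc f i x ≠ loc f i y := by
      intro x y hxy
      apply h (some (i, x)) (some (i, y))
      change adj _ _ = true
      simp [adj, hxy]
    have h3 : ∀ x : Fin 7, (x = 4 ∨ x = 5) → loc f i x ≠ f none := by
      intro x hx
      apply h (some (i, x)) none
      change adj _ _ = true
      rcases hx with hx | hx <;> simp [adj, hx]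
    exact ⟨⟨h3 4 (Or.inl rfl), h3 5 (Or.inr rfl)⟩, ⟨h2 0 4 (by decide), h2 2 4 (by decide)⟩,
      ⟨h2 0 5 (by decide), h2 3 5 (by decide)⟩, h2 1 6 (by decide), h2 2 6 (by decide),
      h2 3 6 (by decide)⟩
  · intro h
    have key : ∀ i, ∀ x y : Fin 7, e7 x y = true → loc f i x ≠ loc f i y := by
      intro i x y hxy
      obtain ⟨⟨_, _⟩, ⟨a1, a2⟩, ⟨a3, a4⟩, a5, a6, a7⟩ := h i
      fin_cases x <;> fin_cases y <;> first
        | exact a1 | exact a2 | exact a3 | exact a4 | exact a5 | exact a6 | exact a7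
        | exact a1.symm | exact a2.symm | exact a3.symm | exact a4.symm | exact a5.symm
        | exact a6.symm | exact a7.symm | exact absurd hxy (by decide)
    have key2 : ∀ i, ∀ x : Fin 7, (x = 4 ∨ x = 5) → loc f i x ≠ f none := by
      intro i x hx
      obtain ⟨⟨b1, b2⟩, _⟩ := h i
      rcases hx with hx | hx
      · rw [hx]; exact b1
      · rw [hx]; exact b2
    intro v w hvw
    change adj v w = true at hvw
    cases v with
    | none =>
      cases w with
      | none => exact absurd hvw (by simp [adj])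
      | some p =>
        simp only [adj, Bool.or_eq_true, decide_eq_true_eq] at hvw
        exact (key2 p.1 p.2 hvw).symm
    | some p =>
      cases w with
      | none =>
        simp only [adj, Bool.or_eq_true, decide_eq_true_eq] at hvw
        exact key2 p.1 p.2 hvw
      | some p' =>
        simp only [adj, Bool.and_eq_true, decide_eq_true_eq] at hvw
        have := key p.1 p.2 p'.2 hvw.2
        unfold loc at this
        rw [show ((p.1, p'.2) : Fin N × Fin 7) = p' from by rw [hvw.1]] at this
        exact this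

/-- Independence of the copies given the colour of the common vertex. -/
theorem count (c : Fin 3) (R : (Fin 7 → Fin 3) → Prop) [DecidablePred R] :
    ((Finset.univ : Finset (Vx N → Fin 3)).filter
      (fun f => f none = c ∧ ∀ i, R (loc f i))).card =
    ((Finset.univ : Finset (Fin 7 → Fin 3)).filter R).card ^ N := by
  have e : ((Finset.univ : Finset (Fin 7 → Fin 3)).filter R).card ^ N =
      (Fintype.piFinset (fun _ : Fin N =>
        (Finset.univ : Finset (Fin 7 → Fin 3)).filter R)).card := by
    rw [Fintype.card_piFinset]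
    simp
  rw [e]
  refine Finset.card_bij (fun f _ => loc f) ?_ ?_ ?_
  · intro f hf
    rw [Finset.mem_filter] at hf
    rw [Fintype.mem_piFinset]
    intro i
    exact Finset.mem_filter.mpr ⟨Finset.mem_univ _, hf.2.2 i⟩
  · intro f hf g hg hfg
    rw [Finset.mem_filter] at hf hg
    funext x
    cases x with
    | none => rw [hf.2.1, hg.2.1]
    | some p => exact congrFun (congrFun hfg p.1) p.2
  · intro h hh
    rw [Fintype.mem_piFinset] at hh
    refine ⟨fun x => match x with
      | none => c
      | some p => h p.1 p.2, ?_, rfl⟩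
    rw [Finset.mem_filter]
    exact ⟨Finset.mem_univ _, rfl, fun i => (Finset.mem_filter.mp (hh i)).2⟩

/-- All `u`'s and the common vertex belong to the set. -/
noncomputable def X (S : Finset (Vx N)) : ℝ := if none ∈ S ∧ ∀ i : Fin N, some (i, 0) ∈ S then 1 else 0

/-- All `w`'s and the common vertex belong to the set. -/
noncomputable def Y (S : Finset (Vx N)) : ℝ := if none ∈ S ∧ ∀ i : Fin N, some (i, 1) ∈ S then 1 else 0

theorem monoX : Monotone (X (N := N)) := by
  intro S T h
  unfold X
  split_ifs with h1 h2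
  · exact le_refl _
  · exact absurd ⟨h h1.1, fun i => h (h1.2 i)⟩ h2
  · exact zero_le_one
  · exact le_refl _

theorem monoY : Monotone (Y (N := N)) := by
  intro S T h
  unfold Y
  split_ifs with h1 h2
  · exact le_refl _
  · exact absurd ⟨h h1.1, fun i => h (h1.2 i)⟩ h2
  · exact zero_le_one
  · exact le_refl _

/-- The proper colourings. -/
def Fc (N : ℕ) : Finset (Vx N → Fin 3) := (Finset.univ : Finset (Vx N → Fin 3)).filter
  (fun f => ∀ v w : Vx N, (Gr N).Adj v w → f v ≠ f w)

theorem X_eq (f : Vx N → Fin 3) : X ((A N).filter (fun v => f v = 0)) =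
    if f none = 0 ∧ ∀ i, loc f i 0 = 0 then 1 else 0 := by
  unfold X
  congr 1
  simp only [Finset.mem_filter, none_mem, some_mem, true_and, loc]
  simp

theorem Y_eq (f : Vx N → Fin 3) : Y ((A N).filter (fun v => f v = 0)) =
    if f none = 0 ∧ ∀ i, loc f i 1 = 0 then 1 else 0 := by
  unfold Y
  congr 1
  simp only [Finset.mem_filter, none_mem, some_mem, true_and, loc]
  simp

theorem card_Fc : (Fc N).card = 3 * 68 ^ N := by
  have h1 : (Fc N).card = ∑ c : Fin 3, ((Fc N).filter (fun f => f none = c)).card :=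
    Finset.card_eq_sum_card_fiberwise (fun _ _ => Finset.mem_coe.mpr (Finset.mem_univ _))
  have h2 : ∀ c : Fin 3, ((Fc N).filter (fun f => f none = c)).card = 68 ^ N := by
    intro c
    rw [← cnt c, ← count c (P c)]
    congr 1
    ext f
    simp only [Fc, Finset.mem_filter, Finset.mem_univ, true_and]
    rw [proper_iff]
    constructor
    · rintro ⟨h, h'⟩; rw [h'] at h; exact ⟨h', h⟩
    · rintro ⟨h, h'⟩; rw [h]; exact ⟨h', rfl⟩
  rw [h1, Finset.sum_congr rfl (fun c _ => h2 c)]
  simp

theorem sumX : ∑ f ∈ Fc N, X ((A N).filter (fun v => f v = 0)) = 44 ^ N := by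
  simp_rw [X_eq]
  rw [Finset.sum_boole]
  have : ((Fc N).filter (fun f => f none = 0 ∧ ∀ i, loc f i 0 = 0)).card = 44 ^ N := by
    rw [← cntU, ← count 0 (fun g => P 0 g ∧ g 0 = 0)]
    congr 1
    ext f
    simp only [Fc, Finset.mem_filter, Finset.mem_univ, true_and]
    rw [proper_iff]
    constructor
    · rintro ⟨h, h', h''⟩; rw [h'] at h; exact ⟨h', fun i => ⟨h i, h'' i⟩⟩
    · rintro ⟨h, h'⟩; rw [h]; exact ⟨fun i => (h' i).1, rfl, fun i => (h' i).2⟩
  rw [this]
  norm_num

theorem sumY : ∑ f ∈ Fc N, Y ((A N).filter (fun v => f v = 0)) = 28 ^ N := by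
  simp_rw [Y_eq]
  rw [Finset.sum_boole]
  have : ((Fc N).filter (fun f => f none = 0 ∧ ∀ i, loc f i 1 = 0)).card = 28 ^ N := by
    rw [← cntW, ← count 0 (fun g => P 0 g ∧ g 1 = 0)]
    congr 1
    ext f
    simp only [Fc, Finset.mem_filter, Finset.mem_univ, true_and]
    rw [proper_iff]
    constructor
    · rintro ⟨h, h', h''⟩; rw [h'] at h; exact ⟨h', fun i => ⟨h i, h'' i⟩⟩
    · rintro ⟨h, h'⟩; rw [h]; exact ⟨fun i => (h' i).1, rfl, fun i => (h' i).2⟩
  rw [this]
  norm_num

theorem sumXY : ∑ f ∈ Fc N, X ((A N).filter (fun v => f v = 0)) * Y ((A N).filter (fun v => f v = 0)) =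
    18 ^ N := by
  have h0 : ∀ f : Vx N → Fin 3, X ((A N).filter (fun v => f v = 0)) * Y ((A N).filter (fun v => f v = 0)) =
      if f none = 0 ∧ ∀ i, loc f i 0 = 0 ∧ loc f i 1 = 0 then (1:ℝ) else 0 := by
    intro f
    rw [X_eq, Y_eq]
    by_cases h1 : f none = 0 ∧ ∀ i, loc f i 0 = 0
    · by_cases h2 : f none = 0 ∧ ∀ i, loc f i 1 = 0
      · rw [if_pos h1, if_pos h2, if_pos ⟨h1.1, fun i => ⟨h1.2 i, h2.2 i⟩⟩]; norm_num
      · have h3 : ¬ (f none = 0 ∧ ∀ i, loc f i 0 = 0 ∧ loc f i 1 = 0) :=
          fun h => h2 ⟨h.1, fun i => (h.2 i).2⟩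
        rw [if_pos h1, if_neg h2, if_neg h3]; norm_num
    · have h3 : ¬ (f none = 0 ∧ ∀ i, loc f i 0 = 0 ∧ loc f i 1 = 0) :=
        fun h => h1 ⟨h.1, fun i => (h.2 i).1⟩
      rw [if_neg h1, if_neg h3]; norm_num
  simp_rw [h0]
  rw [Finset.sum_boole]
  have : ((Fc N).filter (fun f => f none = 0 ∧ ∀ i, loc f i 0 = 0 ∧ loc f i 1 = 0)).card =
      18 ^ N := by
    rw [← cntUW, ← count 0 (fun g => P 0 g ∧ g 0 = 0 ∧ g 1 = 0)]
    congr 1
    ext f
    simp only [Fc, Finset.mem_filter, Finset.mem_univ, true_and]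
    rw [proper_iff]
    constructor
    · rintro ⟨h, h', h''⟩; rw [h'] at h; exact ⟨h', fun i => ⟨h i, h'' i⟩⟩
    · rintro ⟨h, h'⟩; rw [h]; exact ⟨fun i => (h' i).1, rfl, fun i => (h' i).2⟩
  rw [this]
  norm_num

theorem final : ((Fc 169).card : ℝ) *
    (∑ f ∈ Fc 169, X ((A 169).filter (fun v => f v = 0)) *
      Y ((A 169).filter (fun v => f v = 0))) <
    (∑ f ∈ Fc 169, X ((A 169).filter (fun v => f v = 0))) *
      (∑ f ∈ Fc 169, Y ((A 169).filter (fun v => f v = 0))) := by
  rw [card_Fc, sumX, sumY, sumXY]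
  norm_num

end H35R3.Col
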