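import Mathlib

/-!
# Counting self-avoiding open paths in an independent random graph on a finite vertex set

`ex p f` is the expectation of `f A` when the edge set `A` is chosen by keeping every edge `e`
of the complete graph on `V` independently with probability `p e`.
-/

namespace H35R3.PathCount

open Finset

variable {V : Type*} [Fintype V] [DecidableEq V]

/-- Edge set of the complete graph. -/
def allE (V : Type*) [Fintype V] [DecidableEq V] : Finset (Sym2 V) :=
  univ.filter (fun e => ¬ e.IsDiag)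

/-- Weight of a subset `A` of `E`. -/
def wt (p : Sym2 V → ℝ) (E A : Finset (Sym2 V)) : ℝ :=
  (∏ e ∈ A, p e) * ∏ e ∈ E \ A, (1 - p e)

/-- Expectation over subsets of `E`. -/
def ex (p : Sym2 V → ℝ) (E : Finset (Sym2 V)) (f : Finset (Sym2 V) → ℝ) : ℝ :=
  ∑ A ∈ E.powerset, wt p E A * f A

lemma wt_nonneg {p : Sym2 V → ℝ} (h0 : ∀ e, 0 ≤ p e) (h1 : ∀ e, p e ≤ 1)
    (E A : Finset (Sym2 V)) : 0 ≤ wt p E A :=
  mul_nonneg (prod_nonneg fun e _ => h0 e) (prod_nonneg fun e _ => by linarith [h1 e])

lemma ex_split (p : Sym2 V → ℝ) {E : Finset (Sym2 V)} {e : Sym2 V} (he : e ∈ E)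
    (f : Finset (Sym2 V) → ℝ) :
    ex p E f = (1 - p e) * ex p (E.erase e) f
      + p e * ex p (E.erase e) (fun A => f (insert e A)) := by
  unfold ex
  conv_lhs => rw [← insert_erase he]
  rw [sum_powerset_insert (notMem_erase e E), mul_sum, mul_sum]
  congr 1
  · refine sum_congr rfl fun A hA => ?_
    rw [mem_powerset] at hA
    have heA : e ∉ A := fun h => notMem_erase e E (hA h)
    have : insert e (E.erase e) \ A = insert e (E.erase e \ A) := by
      rw [insert_sdiff_of_notMem _ heA]
    unfold wt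
    rw [this, prod_insert (by simp)]
    ring
  · refine sum_congr rfl fun A hA => ?_
    rw [mem_powerset] at hA
    have heA : e ∉ A := fun h => notMem_erase e E (hA h)
    have : insert e (E.erase e) \ insert e A = E.erase e \ A := by
      ext x
      simp only [mem_sdiff, mem_insert, mem_erase]
      constructor
      · rintro ⟨h1, h2⟩
        push Not at h2
        exact ⟨h1.resolve_left h2.1, h2.2⟩
      · rintro ⟨h1, h2⟩
        exact ⟨Or.inr h1, by push Not; exact ⟨h1.1, h2⟩⟩
    unfold wt
    rw [this, prod_insert heA]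
    ring

lemma ex_one (p : Sym2 V → ℝ) (E : Finset (Sym2 V)) : ex p E (fun _ => 1) = 1 := by
  unfold ex wt
  simp only [mul_one]
  rw [← prod_add p (fun e => 1 - p e) E]
  simp

lemma ex_add (p : Sym2 V → ℝ) (E : Finset (Sym2 V)) (f g : Finset (Sym2 V) → ℝ) :
    ex p E (fun A => f A + g A) = ex p E f + ex p E g := by
  unfold ex
  rw [← sum_add_distrib]
  exact sum_congr rfl fun A _ => by ring

lemma ex_sum {ι : Type*} (p : Sym2 V → ℝ) (E : Finset (Sym2 V)) (s : Finset ι)
    (f : ι → Finset (Sym2 V) → ℝ) :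
    ex p E (fun A => ∑ i ∈ s, f i A) = ∑ i ∈ s, ex p E (f i) := by
  unfold ex
  rw [sum_comm]
  exact sum_congr rfl fun A _ => by rw [mul_sum]

lemma ex_mono {p : Sym2 V → ℝ} (h0 : ∀ e, 0 ≤ p e) (h1 : ∀ e, p e ≤ 1)
    (E : Finset (Sym2 V)) {f g : Finset (Sym2 V) → ℝ} (h : ∀ A ⊆ E, f A ≤ g A) :
    ex p E f ≤ ex p E g :=
  sum_le_sum fun A hA => mul_le_mul_of_nonneg_left (h A (mem_powerset.1 hA))
    (wt_nonneg h0 h1 E A)

lemma ex_const_mul (p : Sym2 V → ℝ) (E : Finset (Sym2 V)) (c : ℝ)
    (f : Finset (Sym2 V) → ℝ) : ex p E (fun A => c * f A) = c * ex p E f := by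
  unfold ex
  rw [mul_sum]
  exact sum_congr rfl fun A _ => by ring

/-- Independence: a function not depending on the state of `e`. -/
lemma ex_ind (p : Sym2 V → ℝ) {E : Finset (Sym2 V)} {e : Sym2 V} (he : e ∈ E)
    (g : Finset (Sym2 V) → ℝ) (hg : ∀ A, e ∉ A → g (insert e A) = g A) :
    ex p E (fun A => (if e ∈ A then 1 else 0) * g A) = p e * ex p E g := by
  rw [ex_split p he, ex_split p he g]
  have h1 : ex p (E.erase e) (fun A => (if e ∈ A then 1 else 0) * g A) = 0 := by
    unfold ex
    refine sum_eq_zero fun A hA => ?_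
    rw [mem_powerset] at hA
    have heA : e ∉ A := fun h => notMem_erase e E (hA h)
    simp [heA]
  have h2 : ex p (E.erase e) (fun A => (if e ∈ insert e A then (1:ℝ) else 0) * g (insert e A))
      = ex p (E.erase e) g := by
    unfold ex
    refine sum_congr rfl fun A hA => ?_
    rw [mem_powerset] at hA
    have heA : e ∉ A := fun h => notMem_erase e E (hA h)
    simp [hg A heA]
  have h3 : ex p (E.erase e) (fun A => g (insert e A)) = ex p (E.erase e) g := by
    unfold ex
    refine sum_congr rfl fun A hA => ?_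
    rw [mem_powerset] at hA
    have heA : e ∉ A := fun h => notMem_erase e E (hA h)
    simp [hg A heA]
  rw [h1, h2, h3]
  ring

/-- Number of open self-avoiding paths of length `k` from `x` that avoid `F`. -/
def cnt (A : Finset (Sym2 V)) : ℕ → Finset V → V → ℝ
  | 0, _, _ => 1
  | (k + 1), F, x => ∑ y ∈ univ \ insert x F, (if s(x, y) ∈ A then 1 else 0) *
      cnt A k (insert x F) y

lemma cnt_nonneg (A : Finset (Sym2 V)) (k : ℕ) : ∀ (F : Finset V) (x : V), 0 ≤ cnt A k F x := by
  induction k with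
  | zero => intro F x; simp [cnt]
  | succ k ih =>
    intro F x
    rw [cnt]
    exact sum_nonneg fun y _ => mul_nonneg (by split_ifs <;> norm_num) (ih _ _)

lemma cnt_congr (k : ℕ) : ∀ (A B : Finset (Sym2 V)) (F : Finset V) (x : V), x ∉ F →
    (∀ e : Sym2 V, (∀ v ∈ e, v ∉ F) → (e ∈ A ↔ e ∈ B)) → cnt A k F x = cnt B k F x := by
  induction k with
  | zero => intro A B F x _ _; simp [cnt]
  | succ k ih =>
    intro A B F x hx h
    rw [cnt, cnt]
    refine sum_congr rfl fun y hy => ?_
    simp only [mem_sdiff, mem_univ, true_and, mem_insert, not_or] at hy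
    have h1 : s(x, y) ∈ A ↔ s(x, y) ∈ B := h _ (by
      intro v hv
      rw [Sym2.mem_iff] at hv
      rcases hv with rfl | rfl
      · exact hx
      · exact hy.2)
    rw [ih A B (insert x F) y (by simp [hy.1, hy.2]) (fun e he => h e fun v hv hvF =>
      he v hv (mem_insert_of_mem hvF))]
    simp only [h1]

lemma ex_cnt_succ (p : Sym2 V → ℝ) (k : ℕ) (F : Finset V) (x : V) :
    ex p (allE V) (fun A => cnt A (k + 1) F x)
      = ∑ y ∈ univ \ insert x F, p s(x, y) * ex p (allE V) (fun A => cnt A k (insert x F) y) := by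
  simp only [cnt]
  rw [ex_sum]
  refine sum_congr rfl fun y hy => ?_
  simp only [mem_sdiff, mem_univ, true_and, mem_insert, not_or] at hy
  have he : s(x, y) ∈ allE V := by
    simp [allE, Ne.symm hy.1]
  rw [ex_ind p he (fun A => cnt A k (insert x F) y)]
  intro A _
  refine cnt_congr k _ _ _ _ (by simp [hy.1, hy.2]) fun e he' => ?_
  rw [mem_insert]
  constructor
  · rintro (rfl | h)
    · exact absurd (mem_insert_self x F) (he' x (by simp))
    · exact h
  · exact Or.inr

/-- Number of open self-avoiding paths of length `k` from `x` to `t` that avoid `F`. -/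
def cntT (A : Finset (Sym2 V)) (t : V) : ℕ → Finset V → V → ℝ
  | 0, _, x => if x = t then 1 else 0
  | (k + 1), F, x => ∑ y ∈ univ \ insert x F, (if s(x, y) ∈ A then 1 else 0) *
      cntT A t k (insert x F) y

lemma cntT_nonneg (A : Finset (Sym2 V)) (t : V) (k : ℕ) :
    ∀ (F : Finset V) (x : V), 0 ≤ cntT A t k F x := by
  induction k with
  | zero => intro F x; rw [cntT]; split_ifs <;> norm_num
  | succ k ih =>
    intro F x
    rw [cntT]
    exact sum_nonneg fun y _ => mul_nonneg (by split_ifs <;> norm_num) (ih _ _)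

lemma sum_cntT (A : Finset (Sym2 V)) (k : ℕ) :
    ∀ (F : Finset V) (x : V), ∑ t, cntT A t k F x = cnt A k F x := by
  induction k with
  | zero => intro F x; simp [cntT, cnt]
  | succ k ih =>
    intro F x
    simp only [cntT, cnt]
    rw [sum_comm]
    refine sum_congr rfl fun y _ => ?_
    rw [← mul_sum, ih]

/-- If `y` is reachable from `x` by a path avoiding `F`, some count is at least one. -/
lemma one_le_cntT (A : Finset (Sym2 V)) {x y : V}
    (w : (SimpleGraph.fromEdgeSet (A : Set (Sym2 V))).Walk x y) (hw : w.IsPath) :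
    ∀ F : Finset V, (∀ v ∈ w.support, v ∉ F) → 1 ≤ cntT A y w.length F x := by
  induction w with
  | nil => intro F _; simp [cntT]
  | @cons u v w' h q ih =>
    intro F hF
    rw [SimpleGraph.Walk.cons_isPath_iff] at hw
    have hvF : v ∉ insert u F := by
      rw [mem_insert]
      rintro (rfl | h')
      · exact hw.2 q.start_mem_support
      · exact hF v (by simp) h'
    have h1 := ih hw.1 (insert u F) (by
      intro z hz
      rw [mem_insert]
      rintro (rfl | h')
      · exact hw.2 hz
      · exact hF z (by simp [hz]) h')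
    rw [SimpleGraph.Walk.length_cons, cntT]
    have h2 : (1:ℝ) ≤ (if s(u, v) ∈ A then 1 else 0) * cntT A w' q.length (insert u F) v := by
      have : s(u, v) ∈ A := by
        rw [SimpleGraph.fromEdgeSet_adj] at h
        exact_mod_cast h.1
      simpa [this] using h1
    refine h2.trans ?_
    exact single_le_sum (f := fun z => (if s(u, z) ∈ A then (1:ℝ) else 0) *
      cntT A w' q.length (insert u F) z)
      (fun z _ => mul_nonneg (by split_ifs <;> norm_num) (cntT_nonneg _ _ _ _ _))
      (by simpa using hvF)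

/-- The size of the component of `x` is at most the number of open self-avoiding paths
from `x`. -/
lemma ncard_le (A : Finset (Sym2 V)) (x : V) :
    ((Set.ncard {y | (SimpleGraph.fromEdgeSet (A : Set (Sym2 V))).Reachable x y} : ℕ) : ℝ)
      ≤ ∑ k ∈ range (Fintype.card V), cnt A k ∅ x := by
  classical
  have h1 : ((Set.ncard {y | (SimpleGraph.fromEdgeSet (A : Set (Sym2 V))).Reachable x y} : ℕ) : ℝ)
      = ∑ y : V, (if (SimpleGraph.fromEdgeSet (A : Set (Sym2 V))).Reachable x y then 1 else 0) := by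
    rw [Set.ncard_eq_toFinset_card']
    simp
  rw [h1]
  simp_rw [← sum_cntT]
  rw [sum_comm]
  refine sum_le_sum fun y _ => ?_
  split_ifs with h
  · obtain ⟨w⟩ := h
    have h2 := one_le_cntT A w.toPath.1 w.toPath.2 ∅ (by simp)
    refine h2.trans ?_
    exact single_le_sum (f := fun k => cntT A y k ∅ x) (fun k _ => cntT_nonneg _ _ _ _ _)
      (mem_range.2 w.toPath.2.length_lt)
  · exact sum_nonneg fun k _ => cntT_nonneg _ _ _ _ _

/-- Weighted bound: `D` bounds the mean degrees and `R` the two-step non-backtracking mass. -/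
lemma ex_cnt_le {p : Sym2 V → ℝ} (h0 : ∀ e, 0 ≤ p e) {D R : ℝ} (hD0 : 0 ≤ D) (hR0 : 0 ≤ R)
    (hD : ∀ x, ∑ y ∈ univ.erase x, p s(x, y) ≤ D)
    (hR : ∀ x, ∑ y ∈ univ.erase x, p s(x, y) * ∑ z ∈ (univ.erase y).erase x, p s(y, z) ≤ R)
    (j : ℕ) : ∀ (F : Finset V) (x : V),
      ex p (allE V) (fun A => cnt A (2 * j) F x) ≤ R ^ j ∧
      ex p (allE V) (fun A => cnt A (2 * j + 1) F x) ≤ D * R ^ j := by
  have hsub : ∀ (F : Finset V) (x : V), univ \ insert x F ⊆ univ.erase x := by
    intro F x y hy
    simp only [mem_sdiff, mem_univ, true_and, mem_insert, not_or] at hy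
    simp [hy.1]
  have hsub2 : ∀ (F : Finset V) (x y : V), univ \ insert y (insert x F) ⊆
      (univ.erase y).erase x := by
    intro F x y z hz
    simp only [mem_sdiff, mem_univ, true_and, mem_insert, not_or] at hz
    simp [hz.1, hz.2.1]
  have step : ∀ (k : ℕ) (B : ℝ), 0 ≤ B →
      (∀ (F : Finset V) (x : V), ex p (allE V) (fun A => cnt A k F x) ≤ B) →
      ∀ (F : Finset V) (x : V), ex p (allE V) (fun A => cnt A (k + 2) F x) ≤ R * B := by
    intro k B hB hk F x
    rw [ex_cnt_succ]
    have h1 : ∀ y ∈ univ \ insert x F, p s(x, y) *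
        ex p (allE V) (fun A => cnt A (k + 1) (insert x F) y) ≤
        p s(x, y) * ((∑ z ∈ (univ.erase y).erase x, p s(y, z)) * B) := by
      intro y _
      refine mul_le_mul_of_nonneg_left ?_ (h0 _)
      rw [ex_cnt_succ, sum_mul]
      refine (sum_le_sum fun z _ => mul_le_mul_of_nonneg_left (hk _ _) (h0 _)).trans ?_
      exact sum_le_sum_of_subset_of_nonneg (hsub2 F x y)
        (fun z _ _ => mul_nonneg (h0 _) hB)
    refine (sum_le_sum h1).trans ?_
    have h2 : ∑ y ∈ univ \ insert x F, p s(x, y) *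
        ((∑ z ∈ (univ.erase y).erase x, p s(y, z)) * B) ≤
        ∑ y ∈ univ.erase x, p s(x, y) *
        ((∑ z ∈ (univ.erase y).erase x, p s(y, z)) * B) :=
      sum_le_sum_of_subset_of_nonneg (hsub F x) (fun y _ _ => mul_nonneg (h0 _)
        (mul_nonneg (sum_nonneg fun z _ => h0 _) hB))
    refine h2.trans ?_
    have h3 : ∑ y ∈ univ.erase x, p s(x, y) *
        ((∑ z ∈ (univ.erase y).erase x, p s(y, z)) * B)
        = (∑ y ∈ univ.erase x, p s(x, y) * ∑ z ∈ (univ.erase y).erase x, p s(y, z)) * B := by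
      rw [sum_mul]
      exact sum_congr rfl fun y _ => by ring
    rw [h3]
    exact mul_le_mul_of_nonneg_right (hR x) hB
  induction j with
  | zero =>
    intro F x
    refine ⟨?_, ?_⟩
    · simp only [mul_zero, cnt, pow_zero]
      rw [ex_one]
    · simp only [mul_zero, pow_zero, mul_one]
      rw [ex_cnt_succ]
      simp only [cnt]
      rw [ex_one]
      simp only [mul_one]
      exact (sum_le_sum_of_subset_of_nonneg (hsub F x) (fun y _ _ => h0 _)).trans (hD x)
  | succ j ih =>
    intro F x
    constructor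
    · have := step (2 * j) (R ^ j) (pow_nonneg hR0 j) (fun F x => (ih F x).1) F x
      rw [show 2 * (j + 1) = 2 * j + 2 by ring, pow_succ']
      exact this
    · have := step (2 * j + 1) (D * R ^ j) (mul_nonneg hD0 (pow_nonneg hR0 j))
        (fun F x => (ih F x).2) F x
      rw [show 2 * (j + 1) + 1 = 2 * j + 1 + 2 by ring, pow_succ']
      linarith [this]

/-- Susceptibility bound. -/
lemma ex_ncard_le {p : Sym2 V → ℝ} (h0 : ∀ e, 0 ≤ p e) (h1 : ∀ e, p e ≤ 1) {D R : ℝ}
    (hD0 : 0 ≤ D) (hR0 : 0 ≤ R) (hR1 : R < 1)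
    (hD : ∀ x, ∑ y ∈ univ.erase x, p s(x, y) ≤ D)
    (hR : ∀ x, ∑ y ∈ univ.erase x, p s(x, y) * ∑ z ∈ (univ.erase y).erase x, p s(y, z) ≤ R)
    (x : V) :
    ex p (allE V) (fun A => ((Set.ncard {y | (SimpleGraph.fromEdgeSet
      (A : Set (Sym2 V))).Reachable x y} : ℕ) : ℝ)) ≤ (1 + D) / (1 - R) := by
  refine (ex_mono h0 h1 _ fun A _ => ncard_le A x).trans ?_
  have h2 : ex p (allE V) (fun A => ∑ k ∈ range (Fintype.card V), cnt A k ∅ x) ≤
      ex p (allE V) (fun A => ∑ k ∈ range (2 * Fintype.card V), cnt A k ∅ x) := by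
    refine ex_mono h0 h1 _ fun A _ => ?_
    exact sum_le_sum_of_subset_of_nonneg (range_mono (by omega))
      (fun k _ _ => cnt_nonneg _ _ _ _)
  refine h2.trans ?_
  rw [ex_sum]
  have h3 : ∀ m : ℕ, ∑ k ∈ range (2 * m), ex p (allE V) (fun A => cnt A k ∅ x) ≤
      (1 + D) * ∑ j ∈ range m, R ^ j := by
    intro m
    induction m with
    | zero => simp
    | succ m ih =>
      rw [show 2 * (m + 1) = 2 * m + 1 + 1 by ring, sum_range_succ, sum_range_succ,
        sum_range_succ, mul_add]
      have := ex_cnt_le h0 hD0 hR0 hD hR m ∅ x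
      nlinarith [this.1, this.2]
  refine (h3 _).trans ?_
  have h4 : ∑ j ∈ range (Fintype.card V), R ^ j ≤ 1 / (1 - R) := by
    rw [one_div, ← tsum_geometric_of_lt_one hR0 hR1]
    exact (summable_geometric_of_lt_one hR0 hR1).sum_le_tsum _ (fun _ _ => pow_nonneg hR0 _)
  rw [div_eq_mul_one_div]
  exact mul_le_mul_of_nonneg_left h4 (by linarith)

/-- Size of the component of `x`. -/
noncomputable def csz (A : Finset (Sym2 V)) (x : V) : ℝ :=
  ((Set.ncard {y | (SimpleGraph.fromEdgeSet (A : Set (Sym2 V))).Reachable x y} : ℕ) : ℝ)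

lemma csz_nonneg (A : Finset (Sym2 V)) (x : V) : 0 ≤ csz A x := Nat.cast_nonneg _

/-- Tail bound for the largest component. -/
lemma tail_le {p : Sym2 V → ℝ} (h0 : ∀ e, 0 ≤ p e) (h1 : ∀ e, p e ≤ 1) {t : ℝ} (ht : 0 < t)
    {χ : ℝ} (hχ : ∀ x, ex p (allE V) (fun A => csz A x) ≤ χ) (f : Finset (Sym2 V) → ℝ)
    (hf : ∀ A, f A ≤ 1) (hf0 : ∀ A, (¬ ∃ x, t ≤ csz A x) → f A ≤ 0) :
    ex p (allE V) f ≤ Fintype.card V * χ / t ^ 2 := by
  have key : ∀ A : Finset (Sym2 V), f A ≤ (1 / t ^ 2) * ∑ x, csz A x := by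
    intro A
    by_cases h : ∃ x, t ≤ csz A x
    · obtain ⟨x, hx⟩ := h
      refine (hf A).trans ?_
      have h2 : t ^ 2 ≤ ∑ y, csz A y := by
        have hset : ∀ y, (SimpleGraph.fromEdgeSet (A : Set (Sym2 V))).Reachable x y →
            csz A y = csz A x := by
          intro y hy
          unfold csz
          congr 2
          ext z
          exact ⟨fun h => hy.trans h, fun h => hy.symm.trans h⟩
        classical
        calc t ^ 2 ≤ csz A x * csz A x := by nlinarith
          _ = ∑ y ∈ univ.filter (fun y => (SimpleGraph.fromEdgeSet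
                (A : Set (Sym2 V))).Reachable x y), csz A y := by
              rw [sum_congr rfl (fun y hy => hset y (mem_filter.1 hy).2), sum_const,
                nsmul_eq_mul]
              congr 1
              unfold csz
              rw [Set.ncard_eq_toFinset_card']
              congr 2
              ext y
              simp
          _ ≤ ∑ y, csz A y := sum_le_sum_of_subset_of_nonneg (filter_subset _ _)
              (fun y _ _ => csz_nonneg _ _)
      rw [one_div, ← div_eq_inv_mul, le_div_iff₀ (by positivity)]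
      linarith
    · exact (hf0 A h).trans (mul_nonneg (by positivity) (sum_nonneg fun y _ => csz_nonneg _ _))
  refine (ex_mono h0 h1 _ fun A _ => key A).trans ?_
  rw [ex_const_mul, ex_sum]
  have : ∑ x : V, ex p (allE V) (fun A => csz A x) ≤ Fintype.card V * χ := by
    refine (sum_le_sum fun x _ => hχ x).trans ?_
    simp
  rw [one_div, ← div_eq_inv_mul]
  exact div_le_div_of_nonneg_right this (by positivity)

end H35R3.PathCount
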