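import Mathlib

/-!
Reimer's theorem (the van den Berg-Kesten-Reimer inequality on the discrete cube), by a
rotation argument.
-/

set_option autoImplicit false

namespace H35R3

open Finset Polynomial

set_option linter.unusedSectionVars false

variable {ι : Type*} [Fintype ι] [DecidableEq ι]

/-- Entries of the moving basis. -/
noncomputable def rotE (x z : Bool) : ℝ[X] := if x = z then 1 - X else (if x then -X else X)

/-- Entries of the standard basis. -/
noncomputable def stdE (x z : Bool) : ℝ[X] := if x = z then 1 else 0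

theorem rot_orth {x y : Bool} (h : x ≠ y) : ∑ z : Bool, rotE x z * rotE y z = 0 := by
  cases x <;> cases y <;> simp [rotE] at h ⊢ <;> ring

theorem std_orth {x y : Bool} (h : x ≠ y) : ∑ z : Bool, stdE x z * stdE y z = 0 := by
  cases x <;> cases y <;> simp [stdE] at h ⊢

theorem rotE_zero (x z : Bool) : (rotE x z).eval 0 = if x = z then 1 else 0 := by
  cases x <;> cases z <;> simp [rotE]

theorem stdE_eval (u : ℝ) (x z : Bool) : (stdE x z).eval u = if x = z then 1 else 0 := by
  cases x <;> cases z <;> simp [stdE]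

theorem rotE_one (x z : Bool) : (rotE (!x) z).eval 1 =
    if x = z then (if x then 1 else -1) else 0 := by
  cases x <;> cases z <;> simp [rotE]

theorem prod_orth (a b : ι → Bool → ℝ[X]) (i : ι) (hi : ∑ z : Bool, a i z * b i z = 0) :
    ∑ z : ι → Bool, (∏ j, a j (z j)) * (∏ j, b j (z j)) = 0 := by
  have h1 : ∑ z : ι → Bool, (∏ j, a j (z j)) * (∏ j, b j (z j)) =
      ∏ j, ∑ c : Bool, a j c * b j c := by
    rw [Finset.prod_univ_sum, Fintype.piFinset_univ]
    exact Finset.sum_congr rfl fun z _ => Finset.prod_mul_distrib.symm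
  rw [h1]
  exact Finset.prod_eq_zero (Finset.mem_univ i) hi

/-- The vectors of the butterflies. -/
noncomputable def Wm (K : (ι → Bool) → Finset ι) : Matrix (ι → Bool) (ι → Bool) ℝ[X] :=
  Matrix.of fun x z => ∏ i, (fun i c => if i ∈ K x then stdE (x i) c else rotE (x i) c) i (z i)

open Classical in
/-- The vectors of the uncovered points. -/
noncomputable def Tm (R : Set (ι → Bool)) : Matrix (ι → Bool) (ι → Bool) ℝ[X] :=
  Matrix.of fun v z => ∏ i, (fun i c => if v ∈ R then stdE (v i) c else rotE (!(v i)) c) i (z i)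

theorem det_Wm (K : (ι → Bool) → Finset ι) : (Wm K).det ≠ 0 := by
  intro h
  have h2 := congrArg (Polynomial.evalRingHom (0:ℝ)) h
  rw [RingHom.map_det, map_zero] at h2
  have h3 : (Polynomial.evalRingHom (0:ℝ)).mapMatrix (Wm K) = 1 := by
    ext x z
    rw [RingHom.mapMatrix_apply, Matrix.map_apply, Wm, Matrix.of_apply, map_prod]
    have h4 : ∀ i, (Polynomial.evalRingHom (0:ℝ))
        ((fun i c => if i ∈ K x then stdE (x i) c else rotE (x i) c) i (z i)) =
        if x i = z i then 1 else 0 := by
      intro i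
      simp only [Polynomial.coe_evalRingHom]
      by_cases hi : i ∈ K x
      · rw [if_pos hi, stdE_eval]
      · rw [if_neg hi, rotE_zero]
    rw [Finset.prod_congr rfl (fun i _ => h4 i)]
    by_cases hxz : x = z
    · subst hxz; simp
    · rw [Matrix.one_apply_ne hxz]
      obtain ⟨i, hi⟩ := Function.ne_iff.mp hxz
      exact Finset.prod_eq_zero (Finset.mem_univ i) (by simp [hi])
  rw [h3, Matrix.det_one] at h2
  exact one_ne_zero h2

theorem det_Tm (R : Set (ι → Bool)) : (Tm R).det ≠ 0 := by
  classical
  intro h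
  have h2 := congrArg (Polynomial.evalRingHom (1:ℝ)) h
  rw [RingHom.map_det, map_zero] at h2
  have h3 : (Polynomial.evalRingHom (1:ℝ)).mapMatrix (Tm R) =
      Matrix.diagonal (fun v => ∏ i : ι, (if v ∈ R then (1:ℝ) else (if v i then 1 else -1))) := by
    ext v z
    rw [RingHom.mapMatrix_apply, Matrix.map_apply, Tm, Matrix.of_apply, map_prod]
    have h4 : ∀ i, (Polynomial.evalRingHom (1:ℝ))
        ((fun i c => if v ∈ R then stdE (v i) c else rotE (!(v i)) c) i (z i)) =
        if v i = z i then (if v ∈ R then (1:ℝ) else (if v i then 1 else -1)) else 0 := by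
      intro i
      simp only [Polynomial.coe_evalRingHom]
      by_cases hi : v ∈ R
      · rw [if_pos hi, stdE_eval, if_pos hi]
      · rw [if_neg hi, rotE_one, if_neg hi]
    rw [Finset.prod_congr rfl (fun i _ => h4 i)]
    by_cases hxz : v = z
    · subst hxz; simp
    · rw [Matrix.diagonal_apply_ne _ hxz]
      obtain ⟨i, hi⟩ := Function.ne_iff.mp hxz
      exact Finset.prod_eq_zero (Finset.mem_univ i) (by simp [hi])
  rw [h3, Matrix.det_diagonal, Finset.prod_eq_zero_iff] at h2
  obtain ⟨v, _, hv⟩ := h2
  rw [Finset.prod_eq_zero_iff] at hv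
  obtain ⟨i, _, hi⟩ := hv
  split_ifs at hi <;> norm_num at hi

theorem Wm_apply (K : (ι → Bool) → Finset ι) (x z : ι → Bool) : Wm K x z =
    ∏ i, (fun i c => if i ∈ K x then stdE (x i) c else rotE (x i) c) i (z i) := rfl

theorem Tm_mem {R : Set (ι → Bool)} {v : ι → Bool} (hv : v ∈ R) (z : ι → Bool) :
    Tm R v z = ∏ i, (fun i c => stdE (v i) c) i (z i) := by
  rw [Tm, Matrix.of_apply]
  exact Finset.prod_congr rfl fun i _ => if_pos hv

theorem Tm_not_mem {R : Set (ι → Bool)} {v : ι → Bool} (hv : v ∉ R) (z : ι → Bool) :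
    Tm R v z = ∏ i, (fun i c => rotE (!(v i)) c) i (z i) := by
  rw [Tm, Matrix.of_apply]
  exact Finset.prod_congr rfl fun i _ => if_neg hv

theorem orth1 {K : (ι → Bool) → Finset ι} {R : Set (ι → Bool)} {x v : ι → Bool} (hv : v ∈ R)
    {i : ι} (hi : i ∈ K x) (hne : v i ≠ x i) : (Wm K * (Tm R).transpose) x v = 0 := by
  rw [Matrix.mul_apply]
  simp_rw [Matrix.transpose_apply, Tm_mem hv, Wm_apply]
  refine prod_orth (fun i c => if i ∈ K x then stdE (x i) c else rotE (x i) c)
        (fun i c => stdE (v i) c) i ?_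
  simp only [if_pos hi]
  exact std_orth (Ne.symm hne)

theorem orth2 {K : (ι → Bool) → Finset ι} {R : Set (ι → Bool)} {x v : ι → Bool} (hv : v ∉ R)
    {i : ι} (hi : i ∉ K x) (hne : (!(v i)) ≠ x i) : (Wm K * (Tm R).transpose) x v = 0 := by
  rw [Matrix.mul_apply]
  simp_rw [Matrix.transpose_apply, Tm_not_mem hv, Wm_apply]
  refine prod_orth (fun i c => if i ∈ K x then stdE (x i) c else rotE (x i) c)
        (fun i c => rotE (!(v i)) c) i ?_
  simp only [if_neg hi]
  exact rot_orth (Ne.symm hne)

/-- The butterfly theorem. -/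
theorem butterfly (Xs : Finset (ι → Bool)) (K : (ι → Bool) → Finset ι) (G : Finset (ι → Bool))
    (hG : ∀ v, (∃ x ∈ Xs, ∀ i ∈ K x, v i = x i) → (∃ x ∈ Xs, ∀ i, i ∉ K x → (!(v i)) = x i) →
      v ∈ G) : Xs.card ≤ G.card := by
  obtain ⟨R, hR⟩ : ∃ R : Set (ι → Bool), ∀ v, v ∈ R ↔ ∀ x ∈ Xs, ∃ i ∈ K x, v i ≠ x i :=
    ⟨{v | ∀ x ∈ Xs, ∃ i ∈ K x, v i ≠ x i}, fun v => Iff.rfl⟩
  -- orthogonality
  have horth : ∀ x ∈ Xs, ∀ v, v ∉ G → (Wm K * (Tm R).transpose) x v = 0 := by
    intro x hx v hv
    by_cases hvR : v ∈ R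
    · obtain ⟨i, hi, hne⟩ := (hR v).mp hvR x hx
      exact orth1 hvR hi hne
    · have h1 : ∃ x ∈ Xs, ∀ i ∈ K x, v i = x i := by
        by_contra hcon
        apply hvR
        rw [hR]
        intro y hy
        by_contra hc2
        push Not at hc2
        exact hcon ⟨y, hy, hc2⟩
      have h2 : ¬ ∃ x ∈ Xs, ∀ i, i ∉ K x → (!(v i)) = x i := fun h => hv (hG v h1 h)
      push Not at h2
      obtain ⟨i, hi, hne⟩ := h2 x hx
      exact orth2 hvR hi hne
  -- a generic parameter
  have hP : (Wm K * (Tm R).transpose).det ≠ 0 := by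
    rw [Matrix.det_mul, Matrix.det_transpose]
    exact mul_ne_zero (det_Wm K) (det_Tm R)
  obtain ⟨u, hu⟩ : ∃ u : ℝ, (Wm K * (Tm R).transpose).det.eval u ≠ 0 := by
    by_contra hcon
    push Not at hcon
    apply hP
    apply Polynomial.funext
    intro r
    rw [hcon r, Polynomial.eval_zero]
  obtain ⟨M, hM⟩ : ∃ M : Matrix (ι → Bool) (ι → Bool) ℝ,
    M = (Polynomial.evalRingHom u).mapMatrix (Wm K * (Tm R).transpose) := ⟨_, rfl⟩
  have hMdet : M.det ≠ 0 := by
    rw [hM, ← RingHom.map_det]
    exact hu
  have hMz : ∀ x ∈ Xs, ∀ v, v ∉ G → M x v = 0 := by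
    intro x hx v hv
    rw [hM, RingHom.mapMatrix_apply, Matrix.map_apply, horth x hx v hv, map_zero]
  have hli : LinearIndependent ℝ M.row :=
    Matrix.linearIndependent_rows_of_isUnit
      ((Matrix.isUnit_iff_isUnit_det M).mpr (isUnit_iff_ne_zero.mpr hMdet))
  -- restriction to the columns in `G`
  have hli2 : LinearIndependent ℝ (fun x : Xs => fun v : G => M x.1 v.1) := by
    rw [Fintype.linearIndependent_iff]
    intro g hg
    have h5 := hli.comp (fun x : Xs => x.1) Subtype.val_injective
    rw [Fintype.linearIndependent_iff] at h5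
    apply h5 g
    ext v
    rw [Finset.sum_apply]
    by_cases hv : v ∈ G
    · have := congrFun hg ⟨v, hv⟩
      rw [Finset.sum_apply] at this
      simpa using this
    · apply Finset.sum_eq_zero
      intro x _
      change g x * M x.1 v = 0
      rw [hMz x.1 x.2 v hv, mul_zero]
  have := hli2.fintype_card_le_finrank
  simpa using this

/-- Extension of a partial assignment. -/
def extq (q : ι → Option Bool) (y : {i // q i = none} → Bool) : ι → Bool :=
  fun i => if h : q i = none then y ⟨i, h⟩ else (q i).getD false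

/-- The agreement pattern of two points. -/
def agr (p : (ι → Bool) × (ι → Bool)) : ι → Option Bool :=
  fun i => if p.1 i = p.2 i then some (p.1 i) else none

/-- **Reimer's theorem** on the discrete cube. -/
theorem reimer (A B C : Finset (ι → Bool))
    (hC : ∀ x ∈ C, ∃ K : Finset ι, (∀ y : ι → Bool, (∀ i ∈ K, y i = x i) → y ∈ A) ∧
      (∀ y : ι → Bool, (∀ i, i ∉ K → y i = x i) → y ∈ B)) :
    C.card * 2 ^ (Fintype.card ι) ≤ A.card * B.card := by
  classical
  have e1 : C.card * 2 ^ (Fintype.card ι) = (C ×ˢ (Finset.univ : Finset (ι → Bool))).card := by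
    rw [Finset.card_product]; simp
  rw [e1, ← Finset.card_product]
  rw [Finset.card_eq_sum_card_fiberwise (f := agr) (t := Finset.univ)
    (fun _ _ => Finset.mem_coe.mpr (Finset.mem_univ _)),
    Finset.card_eq_sum_card_fiberwise (s := A ×ˢ B) (f := agr) (t := Finset.univ)
    (fun _ _ => Finset.mem_coe.mpr (Finset.mem_univ _))]
  refine Finset.sum_le_sum fun q _ => ?_
  choose! K hKA hKB using hC
  set Xs : Finset ({i // q i = none} → Bool) := Finset.univ.filter (fun y => extq q y ∈ C) with hXs
  set G : Finset ({i // q i = none} → Bool) := Finset.univ.filter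
    (fun y => extq q y ∈ A ∧ extq q (fun k => !(y k)) ∈ B) with hG
  have step1 : ((C ×ˢ (Finset.univ : Finset (ι → Bool))).filter (fun p => agr p = q)).card ≤
      Xs.card := by
    refine Finset.card_le_card_of_injOn (fun p => fun k : {i // q i = none} => p.1 k.1) ?_ ?_
    · intro p hp
      rw [Finset.mem_coe, Finset.mem_filter, Finset.mem_product] at hp
      obtain ⟨⟨h1, _⟩, h2⟩ := hp
      rw [Finset.mem_coe, hXs, Finset.mem_filter]
      refine ⟨Finset.mem_univ _, ?_⟩
      have : extq q (fun k : {i // q i = none} => p.1 k.1) = p.1 := by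
        funext i
        unfold extq
        by_cases h : q i = none
        · rw [dif_pos h]
        · rw [dif_neg h, ← h2]
          rw [← h2] at h
          unfold agr at h ⊢
          by_cases h3 : p.1 i = p.2 i
          · rw [if_pos h3]; rfl
          · rw [if_neg h3] at h; exact absurd rfl h
      rw [this]
      exact h1
    · intro p hp p' hp' hpp
      rw [Finset.mem_coe, Finset.mem_filter] at hp hp'
      have a1 : ∀ i, p.1 i = p'.1 i := by
        intro i
        by_cases h : q i = none
        · exact congrFun hpp ⟨i, h⟩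
        · have b1 := congrFun hp.2 i
          have b2 := congrFun hp'.2 i
          unfold agr at b1 b2
          by_cases h3 : p.1 i = p.2 i
          · by_cases h4 : p'.1 i = p'.2 i
            · rw [if_pos h3] at b1
              rw [if_pos h4] at b2
              rw [← b2] at b1
              exact Option.some_injective _ b1
            · rw [if_neg h4] at b2; exact absurd b2.symm h
          · rw [if_neg h3] at b1; exact absurd b1.symm h
      have a2 : ∀ i, p.2 i = p'.2 i := by
        intro i
        have b1 := congrFun hp.2 i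
        have b2 := congrFun hp'.2 i
        have b3 := a1 i
        unfold agr at b1 b2
        rw [← b2] at b1
        by_cases h3 : p.1 i = p.2 i
        · by_cases h4 : p'.1 i = p'.2 i
          · rw [← h3, ← h4]; exact b3
          · rw [if_pos h3, if_neg h4] at b1; exact absurd b1 (by simp)
        · by_cases h4 : p'.1 i = p'.2 i
          · rw [if_neg h3, if_pos h4] at b1; exact absurd b1 (by simp)
          · revert h3 h4 b3
            cases p.1 i <;> cases p.2 i <;> cases p'.1 i <;> cases p'.2 i <;> simp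
      exact Prod.ext (funext a1) (funext a2)
  have step3 : G.card ≤ ((A ×ˢ B).filter (fun p => agr p = q)).card := by
    refine Finset.card_le_card_of_injOn
      (fun y => (extq q y, extq q (fun k => !(y k)))) ?_ ?_
    · intro y hy
      rw [Finset.mem_coe, hG, Finset.mem_filter] at hy
      rw [Finset.mem_coe, Finset.mem_filter, Finset.mem_product]
      refine ⟨hy.2, ?_⟩
      funext i
      unfold agr extq
      by_cases h : q i = none
      · simp [h]
      · simp only [h, dif_neg, not_false_eq_true, if_true]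
        cases hq : q i with
        | none => exact absurd hq h
        | some b => rfl
    · intro y _ y' _ hyy
      funext k
      have := congrFun (congrArg Prod.fst hyy) k.1
      unfold extq at this
      simpa [k.2] using this
  refine step1.trans (le_trans ?_ step3)
  refine butterfly Xs (fun y => Finset.univ.filter (fun k => k.1 ∈ K (extq q y))) G ?_
  rintro v ⟨y, hy, h1⟩ ⟨y', hy', h2⟩
  rw [hXs, Finset.mem_filter] at hy hy'
  rw [hG, Finset.mem_filter]
  refine ⟨Finset.mem_univ _, ?_, ?_⟩
  · refine hKA _ hy.2 _ fun i hi => ?_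
    unfold extq
    by_cases h : q i = none
    · rw [dif_pos h, dif_pos h]
      exact h1 ⟨i, h⟩ (Finset.mem_filter.mpr ⟨Finset.mem_univ _, hi⟩)
    · rw [dif_neg h, dif_neg h]
  · refine hKB _ hy'.2 _ fun i hi => ?_
    unfold extq
    by_cases h : q i = none
    · rw [dif_pos h, dif_pos h]
      exact h2 ⟨i, h⟩ (fun hc => hi (Finset.mem_filter.mp hc).2)
    · rw [dif_neg h, dif_neg h]

end H35R3
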